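import Pool.Agent.P.MP_3b9ee7_co.Main

set_option autoImplicit false

namespace Pool.Agent.Results.MP_3b9ee7_co.LineParallelism

open Pool.Agent.P.MP_3b9ee7_co

/-- The case `t = 1`: for every finite field `K` and every odd `d`, the lines of `PG(d, K)`
admit a parallelism. -/
theorem result :
    ∀ (K : Type) [Field K] [Fintype K] (d : ℕ), 2 ∣ (d + 1) →
      ∃ R : {W : Submodule K (Fin (d + 1) → K) // Module.finrank K W = 2} →
            {W : Submodule K (Fin (d + 1) → K) // Module.finrank K W = 2} → Prop,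
        Equivalence R ∧
        ∀ P : Submodule K (Fin (d + 1) → K), Module.finrank K P = 1 →
          ∀ B : {W : Submodule K (Fin (d + 1) → K) // Module.finrank K W = 2},
            ∃! C : {W : Submodule K (Fin (d + 1) → K) // Module.finrank K W = 2},
              P ≤ C.1 ∧ R C B := by
  intro K _ _ d hd
  obtain ⟨k, hk⟩ := hd
  obtain ⟨C, S, hS⟩ := exists_par_even K (Fin (d + 1) → K) (k - 1) (by
    rw [Module.finrank_fin_fun]; omega)
  refine ⟨fun X Y => ∃ c, X.1 ∈ S c ∧ Y.1 ∈ S c, ⟨fun X => ?_, ?_, ?_⟩, ?_⟩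
  · obtain ⟨c, hc, -⟩ := hS.part X.1 X.2
    exact ⟨c, hc, hc⟩
  · rintro X Y ⟨c, h1, h2⟩
    exact ⟨c, h2, h1⟩
  · rintro X Y Z ⟨c, h1, h2⟩ ⟨c', h3, h4⟩
    obtain rfl := (hS.part Y.1 Y.2).unique h2 h3
    exact ⟨c, h1, h4⟩
  · intro P hP B
    obtain ⟨v, hv0, hv⟩ := finrank_eq_one_iff'.mp hP
    obtain ⟨c, hc, hcu⟩ := hS.part B.1 B.2
    obtain ⟨X, ⟨hX, hvX⟩, hXu⟩ := hS.cover c v.1 (fun h => hv0 (Subtype.ext h))
    refine ⟨⟨X, hS.dim c X hX⟩, ⟨fun w hw => ?_, c, hX, hc⟩, ?_⟩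
    · obtain ⟨t, ht⟩ := hv ⟨w, hw⟩
      have : w = t • v.1 := (congrArg Subtype.val ht).symm
      rw [this]
      exact X.smul_mem t hvX
    · rintro Y ⟨hY, c', h1, h2⟩
      obtain rfl := hcu c' h2
      exact Subtype.ext (hXu Y.1 ⟨h1, hY v.2⟩)

end Pool.Agent.Results.MP_3b9ee7_co.LineParallelism
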