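import Pool.Agent.P.MP_3b9ee7_co.Q.All
import Pool.Agent.Results.MP_3b9ee7_co.LineParallelism

set_option autoImplicit false

namespace Pool.Agent.Results.MP_3b9ee7_co.AsymptoticParallelism

open Pool.Agent.P.MP_3b9ee7_co.Q

/-- For every finite field `K` and every `t ≥ 1` there is `d0` such that for all `d ≥ d0` with
`t + 1` dividing `d + 1` the `t`-subspaces of `PG(d, K)` admit a parallelism. -/
theorem result :
    ∀ (K : Type) [Field K] [Fintype K] (t : ℕ), 1 ≤ t → ∃ d0 : ℕ, ∀ d : ℕ, d0 ≤ d →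
      (t + 1) ∣ (d + 1) →
      ∃ R : {W : Submodule K (Fin (d + 1) → K) // Module.finrank K W = t + 1} →
            {W : Submodule K (Fin (d + 1) → K) // Module.finrank K W = t + 1} → Prop,
        Equivalence R ∧
        ∀ P : Submodule K (Fin (d + 1) → K), Module.finrank K P = 1 →
          ∀ B : {W : Submodule K (Fin (d + 1) → K) // Module.finrank K W = t + 1},
            ∃! C : {W : Submodule K (Fin (d + 1) → K) // Module.finrank K W = t + 1},
              P ≤ C.1 ∧ R C B := by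
  intro K _ _ t ht
  rcases ht.eq_or_lt with rfl | ht
  · exact ⟨0, fun d _ hd => LineParallelism.result K d hd⟩
  obtain ⟨n0, h⟩ := final_all K t ht
  refine ⟨n0, fun d hd hdv => ?_⟩
  obtain ⟨C, col, hc⟩ := h (Fin (d + 1) → K) (by rw [Module.finrank_fin_fun]; omega)
    (by rwa [Module.finrank_fin_fun])
  refine ⟨fun X Y => col ⟨X.1, X.2⟩ = col ⟨Y.1, Y.2⟩,
    ⟨fun _ => rfl, fun h => h.symm, fun h h' => h.trans h'⟩, fun P hP B => ?_⟩
  obtain ⟨X, hX, hu⟩ := hc ⟨P, hP⟩ (col ⟨B.1, B.2⟩)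
  exact ⟨⟨X.W, X.h⟩, hX, fun Y hY => Subtype.ext (congrArg Sub.W (hu ⟨Y.1, Y.2⟩ hY))⟩

end Pool.Agent.Results.MP_3b9ee7_co.AsymptoticParallelism
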