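import Pool.Agent.P.MP_3b9ee7_co.NP.Final
import Pool.Agent.P.MP_3b9ee7_co.PP.Main

set_option autoImplicit false

namespace Pool.Agent.Results.MP_3b9ee7_co.PartialParallelism

/-- Nearly complete partial parallelisms: for `2 ≤ t < d` and `t + 1 ∣ d + 1` there are at least
`(1 - q ^ (-(t+1))) q ^ (t (d - t))` pairwise disjoint `t`-spreads of `PG(d, q)`. -/
theorem result :
    ∀ (K : Type) [Field K] [Fintype K] (t d : ℕ), 2 ≤ t → t < d → (t + 1) ∣ (d + 1) →
      ∃ F : Finset (Set (Submodule K (Fin (d + 1) → K))),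
        (∀ S ∈ F, (∀ U ∈ S, Module.finrank K U = t + 1) ∧
          ∀ P : Submodule K (Fin (d + 1) → K), Module.finrank K P = 1 →
            ∃! U, U ∈ S ∧ P ≤ U) ∧
        (∀ S ∈ F, ∀ S' ∈ F, S ≠ S' → Disjoint S S') ∧
        (Fintype.card K ^ (t + 1) - 1) * Fintype.card K ^ (t * (d - t)) ≤
          Fintype.card K ^ (t + 1) * F.card := by
  intro K _ _ t d ht htd hdvd
  by_cases h : d = 2 * t + 1
  · obtain ⟨F, h1, h2, h3⟩ := Pool.Agent.P.MP_3b9ee7_co.PP.two_k K t ht (Fin (d + 1) → K)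
      (by rw [Module.finrank_fin_fun]; omega)
    refine ⟨F, h1, h2, le_trans (le_of_eq ?_) (Nat.mul_le_mul_left _ h3)⟩
    obtain ⟨r, rfl⟩ : ∃ r, t = r + 1 := ⟨t - 1, by omega⟩
    rw [show d - (r + 1) = r + 1 + 1 by omega, add_tsub_cancel_right, mul_left_comm, ← pow_add]
    congr 2
    ring
  · obtain ⟨F, h1, h2, h3⟩ := Pool.Agent.P.MP_3b9ee7_co.NP.concl_big K t d ht htd hdvd h
    exact ⟨F, h1, h2, Nat.mul_le_mul (Nat.sub_le _ _) h3⟩

end Pool.Agent.Results.MP_3b9ee7_co.PartialParallelism
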